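import Pool.Agent.MP_d50107_co.H25.FitLin

/-! The minimum shadow of an intersecting `k`-graph with `m > C(2k-1,k)` edges when there is room
for the extremal family. -/

namespace Pool.Agent.Results.MP_d50107_co.AllSizes

open Finset
open Pool.Agent.MP_d50107_co.H61

/-- `𝒜` is an intersecting `k`-graph with `m` edges on the `n` points of `Fin n` -/
def IsIntersectingGraph (n k m : ℕ) (𝒜 : Finset (Finset (Fin n))) : Prop :=
  (∀ A ∈ 𝒜, A.card = k) ∧ (∀ A ∈ 𝒜, ∀ B ∈ 𝒜, 1 ≤ (A ∩ B).card) ∧ 𝒜.card = m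

/-- the shadow sizes of the two-level families with `m` edges: the first `C(2k-1,k) - M` subsets
of a `(2k-1)`-set, and new points joined to the first `g_1, g_2, ...` sets of size `k-1` -/
def twoLevel (k m : ℕ) : Set ℕ :=
  {v | ∃ (M : ℕ) (g : List ℕ), M ≤ (2 * k - 3).choose (k - 1) ∧ (∀ x ∈ g, x ≤ M) ∧
    (2 * k - 1).choose k + g.sum = m + M ∧
    v = kk k ((2 * k - 1).choose k - M) + (g.map (kk (k - 1))).sum}

theorem result (k m : ℕ) (hk : 2 ≤ k) (hm : (2 * k - 1).choose k < m) :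
    ∃ s : ℕ, IsLeast (twoLevel k m) s ∧ ∀ n : ℕ,
      (∀ 𝒜, IsIntersectingGraph n k m 𝒜 → s ≤ (shadow 𝒜).card) ∧
      ((m < n ∨ (10 * k ≤ n + 7 ∧
          m ≤ (2 * k - 3).choose k + (2 * k - 3).choose (k - 1) * (n - (2 * k - 3)))) →
        ∃ 𝒜, IsIntersectingGraph n k m 𝒜 ∧ (shadow 𝒜).card = s) := by
  have conv : ∀ (n : ℕ) (𝒜 : Finset (Finset (Fin n))),
      (∀ A ∈ 𝒜, ∀ B ∈ 𝒜, 1 ≤ (A ∩ B).card) ↔ Pool.Agent.MP_d50107_co.H54.Inter 𝒜 := fun n 𝒜 => by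
    simp only [Pool.Agent.MP_d50107_co.H54.Inter, one_le_card, Finset.Nonempty, mem_inter]
  obtain ⟨K, rfl⟩ : ∃ K, k = K + 1 := ⟨k - 1, by omega⟩
  have e1 : 2 * (K + 1) - 1 = 2 * K + 1 := by omega
  have e2 : 2 * (K + 1) - 3 = 2 * K - 1 := by omega
  simp only [twoLevel, e1, e2, Nat.add_sub_cancel] at hm ⊢
  obtain ⟨M, g, h1, h2, h3⟩ :=
    Pool.Agent.MP_d50107_co.H25.finalLin (K := K) (m := m) (by omega) hm
  refine ⟨val K M g, ⟨⟨M, g, h1.1, h1.2.1, h1.2.2, rfl⟩, ?_⟩, fun n => ⟨?_, fun hn => ?_⟩⟩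
  · rintro v ⟨M', g', a1, a2, a3, rfl⟩
    exact h2 M' g' ⟨a1, a2, a3⟩
  · rintro 𝒜 ⟨a1, a2, a3⟩
    exact (h3 n).1 𝒜 a1 ((conv _ _).1 a2) a3
  · obtain ⟨𝒜, a1, a2, a3, a4⟩ := (h3 n).2 (hn.imp_right fun h =>
      ⟨by omega, fit_iff (by omega) (by omega) h.2⟩)
    exact ⟨𝒜, ⟨a1, (conv _ _).2 a2, a3⟩, a4⟩

end Pool.Agent.Results.MP_d50107_co.AllSizes
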