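import Pool.Agent.MP_d50107_co.H25.FitLin
import Pool.Agent.MP_d50107_co.H61.TopAux
import Pool.Agent.MP_d50107_co.H61.Dich
import Pool.Agent.MP_d50107_co.H61.Seg
import Pool.Agent.MP_d50107_co.H61.Arith
import Pool.Agent.MP_d50107_co.H61.Lift

/-! The minimum shadow of an intersecting `k`-graph with `m` edges on `n` points whenever
`n ≥ 64 k^2 16^k` or `m ≥ (32 k 4^k)^k`: all but finitely many pairs `(n, m)` for each `k`. -/

namespace Pool.Agent.Results.MP_d50107_co.Cofinite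

open Finset
open Pool.Agent.MP_d50107_co.H61

/-- `𝒜` is an intersecting `k`-graph with `m` edges on the `n` points of `Fin n` -/
def IsIntersectingGraph (n k m : ℕ) (𝒜 : Finset (Finset (Fin n))) : Prop :=
  (∀ A ∈ 𝒜, A.card = k) ∧ (∀ A ∈ 𝒜, ∀ B ∈ 𝒜, 1 ≤ (A ∩ B).card) ∧ 𝒜.card = m

/-- the shadow sizes of the two-level families with `m` edges: the first `C(2k-1,k) - M` subsets
of a `(2k-1)`-set, and new points joined to the first `g_1, g_2, ...` sets of size `k-1` -/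
def twoLevel (k m : ℕ) : Set ℕ :=
  {v | ∃ (M : ℕ) (g : List ℕ), M ≤ (2 * k - 3).choose (k - 1) ∧ (∀ x ∈ g, x ≤ M) ∧
    (2 * k - 1).choose k + g.sum = m + M ∧
    v = kk k ((2 * k - 1).choose k - M) + (g.map (kk (k - 1))).sum}

/-- the `k`-subsets of `Fin n` that have at least `j + 1` points among the first `2 * j + 1` -/
def majority (n k j : ℕ) : Finset (Finset (Fin n)) :=
  (powersetCard k univ).filter fun F => j + 1 ≤ (F.filter fun x => x.val < 2 * j + 1).card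

/-- the threshold `C(2k-3,k) + C(2k-3,k-1) (n-2k+3)` -/
def bound (n k : ℕ) : ℕ := (2 * k - 3).choose k + (2 * k - 3).choose (k - 1) * (n - (2 * k - 3))

theorem result (n k m : ℕ) (hk : 2 ≤ k)
    (hc : 64 * k ^ 2 * 16 ^ k ≤ n ∨ (32 * k * 4 ^ k) ^ k ≤ m)
    (hm : ∃ 𝒜, IsIntersectingGraph n k m 𝒜) :
    ∃ s : ℕ, IsLeast {v | ∃ 𝒜, IsIntersectingGraph n k m 𝒜 ∧ (shadow 𝒜).card = v} s ∧
      (m ≤ (2 * k - 1).choose k → s = kk k m) ∧
      ((2 * k - 1).choose k < m → m ≤ bound n k → IsLeast (twoLevel k m) s) ∧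
      (bound n k < m → ∃ (i : ℕ) (ℒ : Finset (Finset (Fin n))),
        IsGreatest {j | m ≤ (majority n k j).card} i ∧ ℒ ⊆ majority n k i ∧ ℒ.card = m ∧
        (∀ F ∈ ℒ, ∀ G ∈ majority n k i, toColex G < toColex F → G ∈ ℒ) ∧
        s = (shadow ℒ).card) := by
  have conv : ∀ (n : ℕ) (𝒜 : Finset (Finset (Fin n))),
      (∀ A ∈ 𝒜, ∀ B ∈ 𝒜, 1 ≤ (A ∩ B).card) ↔ Pool.Agent.MP_d50107_co.H54.Inter 𝒜 := fun n 𝒜 => by
    simp only [Pool.Agent.MP_d50107_co.H54.Inter, one_le_card, Finset.Nonempty, mem_inter]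
  obtain ⟨𝒜₀, f1, f2, f3⟩ := hm
  obtain ⟨K, rfl⟩ : ∃ K, k = K + 1 := ⟨k - 1, by omega⟩
  have hK : 1 ≤ K := by omega
  have e1 : 2 * (K + 1) - 1 = 2 * K + 1 := by omega
  have e2 : 2 * (K + 1) - 3 = 2 * K - 1 := by omega
  classical
  have hex : ∃ v, ∃ 𝒜, IsIntersectingGraph n (K + 1) m 𝒜 ∧ (shadow 𝒜).card = v :=
    ⟨_, 𝒜₀, ⟨f1, f2, f3⟩, rfl⟩
  have hs : IsLeast {v | ∃ 𝒜, IsIntersectingGraph n (K + 1) m 𝒜 ∧ (shadow 𝒜).card = v}
      (Nat.find hex) := ⟨Nat.find_spec hex, fun v hv => Nat.find_min' hex hv⟩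
  refine ⟨Nat.find hex, hs, fun hm => ?_, fun hm hb => ?_, fun hb => ?_⟩
  · rw [e1] at hm
    obtain ⟨𝒜, a1, a2, a3, a4⟩ := small (K := K) hm f1 f3
    refine hs.unique ⟨⟨𝒜, ⟨a1, (conv _ _).2 a2, a3⟩, a4⟩, ?_⟩
    rintro v ⟨ℬ, ⟨b1, b2, b3⟩, rfl⟩
    exact b3 ▸ lower_kk b1 ((conv _ _).1 b2)
  · simp only [twoLevel, bound, e1, e2, Nat.add_sub_cancel] at hm hb ⊢
    have hn : 10 * K + 3 ≤ n := by
      rcases hc with h | h
      · have h1 : 1 ≤ 16 ^ (K + 1) := Nat.one_le_pow _ _ (by norm_num)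
        nlinarith
      · by_contra hn
        have h1 : (2 * K - 1).choose (K + 1) ≤ 2 ^ (2 * K - 1) := Nat.choose_le_two_pow _ _
        have h2 : (2 * K - 1).choose K ≤ 2 ^ (2 * K - 1) := Nat.choose_le_two_pow _ _
        have h3 : 2 ^ (2 * K - 1) ≤ 4 ^ (K + 1) := by
          rw [show (4 : ℕ) = 2 ^ 2 by norm_num, ← pow_mul]
          exact Nat.pow_le_pow_right (by norm_num) (by omega)
        have h4 : (2 * K - 1).choose K * (n - (2 * K - 1)) ≤ 4 ^ (K + 1) * (8 * K + 3) :=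
          Nat.mul_le_mul (h2.trans h3) (by omega)
        have h5 : 32 * (K + 1) * 4 ^ (K + 1) ≤ (32 * (K + 1) * 4 ^ (K + 1)) ^ (K + 1) :=
          Nat.le_self_pow (by omega) _
        have h6 : 1 ≤ 4 ^ (K + 1) := Nat.one_le_pow _ _ (by norm_num)
        generalize 4 ^ (K + 1) = P at *
        nlinarith
    obtain ⟨M, g, h1, h2, h3⟩ := Pool.Agent.MP_d50107_co.H25.finalLin (K := K) (m := m) hK hm
    obtain ⟨𝒜, a1, a2, a3, a4⟩ := (h3 n).2 (Or.inr ⟨hn, fit_iff hK (by omega) hb⟩)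
    have e : Nat.find hex = val K M g := by
      refine hs.unique ⟨⟨𝒜, ⟨a1, (conv _ _).2 a2, a3⟩, a4⟩, ?_⟩
      rintro v ⟨ℬ, ⟨b1, b2, b3⟩, rfl⟩
      exact (h3 n).1 ℬ b1 ((conv _ _).1 b2) b3
    rw [e]
    refine ⟨⟨M, g, h1.1, h1.2.1, h1.2.2, rfl⟩, ?_⟩
    rintro v ⟨M', g', a1, a2, a3, rfl⟩
    exact h2 M' g' ⟨a1, a2, a3⟩
  · simp only [bound, e2, Nat.add_sub_cancel] at hb
    obtain ⟨i, ℒ, h1, h2, h3, h4⟩ := top_aux dichStmt segStmt ar lf hK hc hb f1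
      ((conv _ _).1 f2) f3
    refine ⟨i, ℒ, h1, h2.1, h3, h2.2, hs.unique ⟨⟨ℒ, ⟨fun A hA =>
      (Pool.Agent.MP_d50107_co.H54.mem_fam.1 (h2.1 hA)).2.1,
      (conv _ _).2 ((Pool.Agent.MP_d50107_co.H54.inter_maj n (K + 1) i).mono h2.1), h3⟩, rfl⟩, ?_⟩⟩
    rintro v ⟨𝒜, ⟨b1, b2, b3⟩, rfl⟩
    exact h4 𝒜 b1 ((conv _ _).1 b2) b3

end Pool.Agent.Results.MP_d50107_co.Cofinite
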