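import Pool.Agent.MP_d50107_co.H92.Main

/-! The convex hull of the minimum shadow function of intersecting `k`-graphs on `n > 2 k`
points: its edges join consecutive majority families, which are the only families on them. -/

namespace Pool.Agent.Results.MP_d50107_co.Hull

open Finset

/-- `𝒜` is an intersecting `k`-graph on the `n` points of `Fin n` -/
def IsIntersecting (n k : ℕ) (𝒜 : Finset (Finset (Fin n))) : Prop :=
  (∀ A ∈ 𝒜, A.card = k) ∧ ∀ A ∈ 𝒜, ∀ B ∈ 𝒜, 1 ≤ (A ∩ B).card

/-- the `k`-subsets of `Fin n` that have at least `j + 1` points among the first `2 * j + 1` -/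
def majority (n k j : ℕ) : Finset (Finset (Fin n)) :=
  (powersetCard k univ).filter fun F => j + 1 ≤ (F.filter fun x => x.val < 2 * j + 1).card

/-- `𝒜` consists of the `k`-sets with at least `j + 1` points in some set of `2 * j + 1` points -/
def IsMajority (n k j : ℕ) (𝒜 : Finset (Finset (Fin n))) : Prop :=
  ∃ Z : Finset (Fin n), Z.card = 2 * j + 1 ∧
    ∀ F : Finset (Fin n), F ∈ 𝒜 ↔ F.card = k ∧ j + 1 ≤ (F ∩ Z).card

/-- the slope `1 + 2 (k - a) / ((a + 1) (n - 2 k))` -/
def slope (n k a : ℕ) : ℚ := 1 + 2 * ((k : ℚ) - a) / (((a : ℚ) + 1) * ((n : ℚ) - 2 * k))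

open Pool.Agent.MP_d50107_co in
theorem result (n k a : ℕ) (hn : 2 * k < n) (ha : 1 ≤ a) (hak : a < k) :
    (majority n k a).card < (majority n k (a - 1)).card ∧
    ∀ 𝒜 : Finset (Finset (Fin n)), IsIntersecting n k 𝒜 →
      ((shadow (majority n k a)).card : ℚ) +
          slope n k a * ((𝒜.card : ℚ) - (majority n k a).card) ≤ (shadow 𝒜).card ∧
      (((shadow (majority n k a)).card : ℚ) +
          slope n k a * ((𝒜.card : ℚ) - (majority n k a).card) = (shadow 𝒜).card ↔
        IsMajority n k a 𝒜 ∨ IsMajority n k (a - 1) 𝒜) := by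
  obtain ⟨a, rfl⟩ : ∃ b, a = b + 1 := ⟨a - 1, by omega⟩
  have e1 : ∀ j, majority n k j = H92.AA n k j := fun j => by
    ext F
    simp only [majority, H92.AA, H92.mem_lev, mem_filter, mem_powersetCard, subset_univ, true_and]
    rfl
  have e2 : ∀ j 𝒜, IsMajority n k j 𝒜 ↔ H92.Copy k j 𝒜 := fun j 𝒜 =>
    exists_congr fun Z => and_congr_right fun _ => by simp only [Finset.ext_iff, H92.mem_mj]
  have e3 : slope n k (a + 1) = H92.mu n k (a + 1) := rfl
  rw [Nat.add_sub_cancel, e1, e1]
  refine ⟨H92.card_AA_lt hn hak, fun 𝒜 h => ?_⟩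
  obtain ⟨h1, h2⟩ := H92.hull (𝒜 := 𝒜) hn hak
    (fun A hA => mem_powersetCard.2 ⟨subset_univ _, h.1 A hA⟩) fun A hA B hB => by
      simpa only [one_le_card, Finset.Nonempty, mem_inter] using h.2 A hA B hB
  rw [e2, e2, e3, ← h2]
  simp only [H92.W] at h1 ⊢
  exact ⟨by linarith, fun e => by linarith, fun e => by linarith⟩

end Pool.Agent.Results.MP_d50107_co.Hull
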