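import Pool.Agent.MP_d50107_co.P61.Main

/-! The minimum shadow of an intersecting `k`-graph with `m` edges on `n` points for every `m`
as soon as `n ≥ 20000 k^20`. -/

namespace Pool.Agent.Results.MP_d50107_co.PolyRange

open Finset
open Pool.Agent.MP_d50107_co.H61
open Pool.Agent.MP_d50107_co.P61

/-- `𝒜` is an intersecting `k`-graph with `m` edges on the `n` points of `Fin n` -/
def IsIntersectingGraph (n k m : ℕ) (𝒜 : Finset (Finset (Fin n))) : Prop :=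
  (∀ A ∈ 𝒜, A.card = k) ∧ (∀ A ∈ 𝒜, ∀ B ∈ 𝒜, 1 ≤ (A ∩ B).card) ∧ 𝒜.card = m

/-- the `k`-subsets of `Fin n` that have at least `j + 1` points among the first `2 * j + 1` -/
def majority (n k j : ℕ) : Finset (Finset (Fin n)) :=
  (powersetCard k univ).filter fun F => j + 1 ≤ (F.filter fun x => x.val < 2 * j + 1).card

/-- the shadow sizes of the first `m` members, in colex order, of the majority families -/
def segValues (n k m : ℕ) : Set ℕ :=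
  {v | ∃ (j : ℕ) (ℒ : Finset (Finset (Fin n))), ℒ ⊆ majority n k j ∧ ℒ.card = m ∧
    (∀ F ∈ ℒ, ∀ G ∈ majority n k j, toColex G < toColex F → G ∈ ℒ) ∧ v = (shadow ℒ).card}

/-- the values of the mixed families: from the majority family of `2a+1` points remove `M j`
traces of size `a+1` over the `j`-th `s`-set of the other `N` points, and add `g i` traces of size
`a` over the `i`-th `(s+1)`-set -/
def mixValues (n k m : ℕ) : Set ℕ :=
  {v | ∃ (a s N : ℕ) (g M : ℕ → ℕ), 1 ≤ a ∧ a + s + 1 = k ∧ 2 * a + 1 + N = n ∧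
    (∀ j < N.choose s, M j ≤ (2 * a - 1).choose a) ∧
    (∀ i < N.choose (s + 1), ∀ j < kkDown (N - 2 * s - 1) (N - s - 1) (i + 1), g i ≤ M j) ∧
    m + ∑ j ∈ range (N.choose s), M j =
      ∑ i ∈ range (s + 1), (2 * a + 1).choose (k - i) * N.choose i +
        ∑ i ∈ range (N.choose (s + 1)), g i ∧
    v = ∑ i ∈ range s, (2 * a + 1).choose (k - 1 - i) * N.choose i +
      ∑ j ∈ range (N.choose s), kk (a + 1) ((2 * a + 1).choose (a + 1) - M j) +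
        ∑ i ∈ range (N.choose (s + 1)), kk a (g i)}

theorem result (n k m : ℕ) (hk : 2 ≤ k) (hn : 20000 * k ^ 20 ≤ n)
    (hm : ∃ 𝒜, IsIntersectingGraph n k m 𝒜) :
    ∃ s : ℕ, IsLeast {v | ∃ 𝒜, IsIntersectingGraph n k m 𝒜 ∧ (shadow 𝒜).card = v} s ∧
      IsLeast (segValues n k m ∪ mixValues n k m) s := by
  have conv : ∀ (n : ℕ) (𝒜 : Finset (Finset (Fin n))),
      (∀ A ∈ 𝒜, ∀ B ∈ 𝒜, 1 ≤ (A ∩ B).card) ↔ Pool.Agent.MP_d50107_co.H54.Inter 𝒜 := fun n 𝒜 => by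
    simp only [Pool.Agent.MP_d50107_co.H54.Inter, one_le_card, Finset.Nonempty, mem_inter]
  obtain ⟨𝒜₀, f1, f2, f3⟩ := hm
  obtain ⟨K, rfl⟩ : ∃ K, k = K + 1 := ⟨k - 1, by omega⟩
  have hK : 1 ≤ K := by omega
  have p1 : K + 1 ≤ (K + 1) ^ 20 := Nat.le_self_pow (by norm_num) _
  classical
  have hex : ∃ v, ∃ 𝒜, IsIntersectingGraph n (K + 1) m 𝒜 ∧ (shadow 𝒜).card = v :=
    ⟨_, 𝒜₀, ⟨f1, f2, f3⟩, rfl⟩
  have hs : IsLeast {v | ∃ 𝒜, IsIntersectingGraph n (K + 1) m 𝒜 ∧ (shadow 𝒜).card = v}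
      (Nat.find hex) := ⟨Nat.find_spec hex, fun v hv => Nat.find_min' hex hv⟩
  have up : ∀ v ∈ segValues n (K + 1) m ∪ mixValues n (K + 1) m, Nat.find hex ≤ v := by
    rintro v (⟨j, ℒ, h1, h2, -, rfl⟩ | h)
    · exact hs.2 ⟨ℒ, ⟨fun A hA => (Pool.Agent.MP_d50107_co.H54.mem_fam.1 (h1 hA)).2.1,
        (conv _ _).2 ((Pool.Agent.MP_d50107_co.H54.inter_maj n (K + 1) j).mono h1), h2⟩, rfl⟩
    · obtain ⟨𝒜, a1, a2, a3, a4⟩ := Core.rm_upper all (by omega) h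
      exact (hs.2 ⟨𝒜, ⟨a1, (conv _ _).2 a2, a3⟩, rfl⟩).trans a4
  refine ⟨Nat.find hex, hs, ?_, up⟩
  obtain ⟨𝒜, ⟨a1, a2, a3⟩, a4⟩ := hs.1
  rcases Core.lower all dm hK hn a1 ((conv _ _).1 a2) with ⟨j, ℒ, c1, c2, c3⟩ | ⟨v, c1, c2⟩
  · have h : (shadow ℒ).card ∈ segValues n (K + 1) m := ⟨j, ℒ, c1.1, c2.trans a3, c1.2, rfl⟩
    rw [le_antisymm (up _ (Or.inl h)) (c3.trans a4.le)]
    exact Or.inl h
  · have h : v ∈ mixValues n (K + 1) m := a3 ▸ c1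
    rw [le_antisymm (up _ (Or.inr h)) (c2.trans a4.le)]
    exact Or.inr h

end Pool.Agent.Results.MP_d50107_co.PolyRange
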